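import Mathlib

/-! Definitions for MP_1611d4_co: finite abstract simplicial complexes, shellability,
vertex-decomposability (Provan and Billera), stacking of all facets, triangulated spheres. -/

set_option autoImplicit false

namespace Pool.Agent.Lib.MP_1611d4_co

/-- A finite abstract simplicial complex with vertices in `V`: a finite family of finite sets
(the faces) that contains every subset of each of its members. -/
@[ext]
structure Cplx (V : Type) where
  faces : Finset (Finset V)
  down_closed : ∀ F ∈ faces, ∀ G : Finset V, G ⊆ F → G ∈ faces

namespace Cplx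

variable {V : Type}

/-- A facet is a face that is maximal under inclusion. -/
def IsFacet (K : Cplx V) (F : Finset V) : Prop :=
  F ∈ K.faces ∧ ∀ G ∈ K.faces, F ⊆ G → G = F

/-- A complex is pure if all its facets have the same dimension. -/
def IsPure (K : Cplx V) : Prop :=
  ∀ F G : Finset V, K.IsFacet F → K.IsFacet G → F.card = G.card

/-- The full simplex on the vertex set `F` (for `F = ∅` this is the complex `{∅}`). -/
def simplex (F : Finset V) : Cplx V where
  faces := F.powerset
  down_closed := by
    intro G hG H hH
    rw [Finset.mem_powerset] at hG ⊢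
    exact hH.trans hG

variable [DecidableEq V]

instance (K : Cplx V) : DecidablePred K.IsFacet := fun F => by
  unfold IsFacet
  infer_instance

/-- The link of the vertex `v`: all faces `G` with `v ∉ G` and `G ∪ {v}` a face. -/
def link (K : Cplx V) (v : V) : Cplx V where
  faces := K.faces.filter (fun G => v ∉ G ∧ insert v G ∈ K.faces)
  down_closed := by
    intro G hG H hH
    rw [Finset.mem_filter] at hG ⊢
    exact ⟨K.down_closed G hG.1 H hH, fun h => hG.2.1 (hH h),
      K.down_closed _ hG.2.2 _ (Finset.insert_subset_insert v hH)⟩

/-- The deletion of the vertex `v`: all faces not containing `v`. -/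
def del (K : Cplx V) (v : V) : Cplx V where
  faces := K.faces.filter (fun G => v ∉ G)
  down_closed := by
    intro G hG H hH
    rw [Finset.mem_filter] at hG ⊢
    exact ⟨K.down_closed G hG.1 H hH, fun h => hG.2 (hH h)⟩

/-- The complex `⟨F⟩ ∩ (⋃ H ∈ l, ⟨H⟩)`, where `⟨F⟩` is the set of all faces of `F`. -/
def meetPrev (l : List (Finset V)) (F : Finset V) : Cplx V where
  faces := F.powerset.filter (fun G => ∃ H ∈ l, G ⊆ H)
  down_closed := by
    intro G hG H hH
    rw [Finset.mem_filter, Finset.mem_powerset] at hG ⊢
    obtain ⟨h1, K, hK, h2⟩ := hG
    exact ⟨hH.trans h1, K, hK, hH.trans h2⟩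

/-- A complex is shellable if it is pure and its facets can be listed (without repetition) as
`F₁, …, Fₘ` so that for every `j ≥ 2` the complex `⟨F_j⟩ ∩ ⋃_{i<j} ⟨F_i⟩` is pure of dimension
one less than the dimension of `F_j`, i.e. each facet of it has `|F_j| - 1` elements. -/
def Shellable (K : Cplx V) : Prop :=
  K.IsPure ∧ ∃ l : List (Finset V), l.Nodup ∧ (∀ F, F ∈ l ↔ K.IsFacet F) ∧
    ∀ (l₁ l₂ : List (Finset V)) (F : Finset V), l = l₁ ++ F :: l₂ → l₁ ≠ [] →
      ∀ G, (meetPrev l₁ F).IsFacet G → G.card + 1 = F.card

/-- Vertex-decomposability (Provan and Billera). A pure complex is vertex-decomposable if it is a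
simplex (possibly `{∅}`), or if it has a vertex `v` such that the link and the deletion of `v` are
both vertex-decomposable and no facet of the link is a facet of the deletion. -/
inductive VertexDecomposable : Cplx V → Prop
  | simplex (F : Finset V) : VertexDecomposable (simplex F)
  | shed (K : Cplx V) (v : V) (hpure : K.IsPure) (hv : {v} ∈ K.faces)
      (hlink : VertexDecomposable (K.link v)) (hdel : VertexDecomposable (K.del v))
      (hfacet : ∀ F : Finset V, (K.link v).IsFacet F → ¬ (K.del v).IsFacet F) :
      VertexDecomposable K

/-- Stacking all facets. The vertices of the new complex are the old vertices (left summand) and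
one new vertex `w_F` for each facet `F` (the right summand; `w_F` is `Sum.inr F`). Every facet `F`
is removed, and all faces `{w_F} ∪ G` with `G` a proper face of `F` are added. Here
`G.disjSum ∅` is the face `G` made of old vertices and `G.disjSum {F}` is `G ∪ {w_F}`. -/
def stackAll (K : Cplx V) : Cplx (V ⊕ Finset V) where
  faces := (K.faces.filter (fun G => ¬ K.IsFacet G)).image (fun G => G.disjSum ∅) ∪
    (K.faces.filter K.IsFacet).biUnion
      (fun F => (F.powerset.filter (fun G => G ≠ F)).image (fun G => G.disjSum {F}))
  down_closed := by
    intro A hA B hB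
    simp only [Finset.mem_union, Finset.mem_image, Finset.mem_filter, Finset.mem_biUnion,
      Finset.mem_powerset] at hA ⊢
    rcases hA with ⟨G, ⟨hG, hG2⟩, rfl⟩ | ⟨F, ⟨hF, hF2⟩, G, ⟨hG, hG2⟩, rfl⟩
    · left
      refine ⟨B.toLeft, ⟨K.down_closed G hG _ ?_, ?_⟩, ?_⟩
      · intro x hx
        have := hB (Finset.mem_toLeft.1 hx)
        simpa using this
      · intro h
        apply hG2
        have hBG : B.toLeft ⊆ G := by
          intro x hx
          have := hB (Finset.mem_toLeft.1 hx)
          simpa using this
        rw [h.2 G hG hBG]
        exact h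
      · ext x
        rcases x with x | x
        · simp
        · simp only [Finset.inr_mem_disjSum, Finset.notMem_empty, false_iff]
          intro h
          simpa using hB h
    · have hBG : B.toLeft ⊆ G := by
        intro x hx
        have := hB (Finset.mem_toLeft.1 hx)
        simpa using this
      have hR : ∀ x, Sum.inr x ∈ B → x = F := by
        intro x hx
        simpa using hB hx
      by_cases hFB : Sum.inr F ∈ B
      · right
        refine ⟨F, ⟨hF, hF2⟩, B.toLeft, ⟨hBG.trans hG, ?_⟩, ?_⟩
        · rintro h
          exact hG2 (Finset.Subset.antisymm hG (h ▸ hBG))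
        · ext x
          rcases x with x | x
          · simp
          · simp only [Finset.inr_mem_disjSum, Finset.mem_singleton]
            exact ⟨fun h => h ▸ hFB, hR x⟩
      · left
        refine ⟨B.toLeft, ⟨K.down_closed F hF _ (hBG.trans hG), ?_⟩, ?_⟩
        · intro h
          have h1 := h.2 F hF (hBG.trans hG)
          exact hG2 (Finset.Subset.antisymm hG (h1 ▸ hBG))
        · ext x
          rcases x with x | x
          · simp
          · simp only [Finset.inr_mem_disjSum, Finset.notMem_empty, false_iff]
            intro h
            exact hFB (hR x h ▸ h)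

/-- The geometric realisation: formal convex combinations of vertices supported on a face, with
the topology of pointwise convergence of the coefficients. -/
def realization (K : Cplx V) : Set (V → ℝ) :=
  {x | (∀ v, 0 ≤ x v) ∧ ∃ F ∈ K.faces, (∀ v, v ∉ F → x v = 0) ∧ ∑ v ∈ F, x v = 1}

/-- `K` is a triangulated `d`-sphere: its geometric realisation is homeomorphic to the unit
sphere of Euclidean `(d+1)`-space. -/
def IsSphere (d : ℕ) (K : Cplx V) : Prop :=
  Nonempty (K.realization ≃ₜ Metric.sphere (0 : EuclideanSpace ℝ (Fin (d + 1))) 1)

end Cplx

end Pool.Agent.Lib.MP_1611d4_co
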