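import Pool.Agent.Lib.MP_1611d4_co.State

/-! A finite complex whose full stacking is vertex-decomposable is shellable. -/

set_option autoImplicit false

namespace Pool.Agent.Lib.MP_1611d4_co

open Cplx

variable {V : Type} [DecidableEq V]

theorem isPure_of_vd {K : Cplx V} (h : VertexDecomposable K) : K.IsPure := by
  cases h with
  | simplex F =>
    have key : ∀ G, (simplex F).IsFacet G → G = F := by
      intro G hG
      have h1 : G ⊆ F := by simpa [simplex] using hG.1
      have h2 : F ∈ (simplex F).faces := by simp [simplex]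
      exact (hG.2 F h2 h1).symm
    intro G H hG hH
    rw [key G hG, key H hH]
  | shed _ v hpure hv hlink hdel hfacet => exact hpure

theorem empty_mem_of_vd {K : Cplx V} (h : VertexDecomposable K) : ∅ ∈ K.faces := by
  cases h with
  | simplex F => simp [simplex]
  | shed _ v hpure hv hlink hdel hfacet => exact K.down_closed _ hv _ (Finset.empty_subset _)

theorem exists_facet (K : Cplx V) {F : Finset V} (hF : F ∈ K.faces) :
    ∃ G, K.IsFacet G ∧ F ⊆ G := by
  obtain ⟨G, hG, hmax⟩ := Finset.exists_max_image (K.faces.filter (fun G => F ⊆ G)) Finset.card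
    ⟨F, Finset.mem_filter.2 ⟨hF, Finset.Subset.refl _⟩⟩
  rw [Finset.mem_filter] at hG
  refine ⟨G, ⟨hG.1, ?_⟩, hG.2⟩
  intro H hH hGH
  have := hmax H (Finset.mem_filter.2 ⟨hH, hG.2.trans hGH⟩)
  exact (Finset.eq_of_subset_of_card_le hGH this).symm

theorem mem_stackAll (S : Cplx V) (A : Finset (V ⊕ Finset V)) :
    A ∈ S.stackAll.faces ↔ (∃ G, G ∈ S.faces ∧ ¬ S.IsFacet G ∧ G.disjSum ∅ = A) ∨
      ∃ F, S.IsFacet F ∧ ∃ G, G ⊆ F ∧ G ≠ F ∧ G.disjSum {F} = A := by
  simp only [stackAll, Finset.mem_union, Finset.mem_image, Finset.mem_filter, Finset.mem_biUnion,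
    Finset.mem_powerset]
  constructor
  · rintro (⟨G, ⟨h1, h2⟩, h3⟩ | ⟨F, ⟨h1, h2⟩, G, ⟨h3, h4⟩, h5⟩)
    · exact Or.inl ⟨G, h1, h2, h3⟩
    · exact Or.inr ⟨F, h2, G, h3, h4, h5⟩
  · rintro (⟨G, h1, h2, h3⟩ | ⟨F, h2, G, h3, h4, h5⟩)
    · exact Or.inl ⟨G, ⟨h1, h2⟩, h3⟩
    · exact Or.inr ⟨F, ⟨h2.1, h2⟩, G, ⟨h3, h4⟩, h5⟩

/-- Every facet of `S` is nonempty if the stacking is vertex-decomposable. -/
theorem facet_nonempty {S : Cplx V} (h : VertexDecomposable S.stackAll) {F : Finset V}
    (hF : S.IsFacet F) : F.Nonempty := by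
  rw [Finset.nonempty_iff_ne_empty]
  rintro rfl
  have h0 := empty_mem_of_vd h
  rw [mem_stackAll] at h0
  rcases h0 with ⟨G, hG, hG2, -⟩ | ⟨F, hF', G, hG, hG2, -⟩
  · have := hF.2 G hG (Finset.empty_subset _)
    exact hG2 (this ▸ hF)
  · have := hF.2 F hF'.1 (Finset.empty_subset _)
    subst this
    exact hG2 (Finset.subset_empty.1 hG)

theorem facet_stackAll {S : Cplx V} {F : Finset V} (hF : S.IsFacet F) {u : V} (hu : u ∈ F) :
    S.stackAll.IsFacet ((F.erase u).disjSum {F}) := by
  constructor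
  · rw [mem_stackAll]
    right
    refine ⟨F, hF, F.erase u, Finset.erase_subset _ _, ?_, rfl⟩
    intro h
    rw [Finset.erase_eq_self] at h
    exact h hu
  · intro A hA hsub
    have hFA : Sum.inr F ∈ A := hsub (by simp)
    rw [mem_stackAll] at hA
    rcases hA with ⟨G, hG, hG2, rfl⟩ | ⟨F', hF', G, hG, hG2, rfl⟩
    · simp at hFA
    · have hFF : F = F' := by simpa using hFA
      subst hFF
      have h1 : F.erase u ⊆ G := by
        intro y hy
        simpa using hsub (Finset.inl_mem_disjSum.2 hy)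
      have h2 : G.card < F.card := Finset.card_lt_card (Finset.ssubset_iff_subset_ne.2 ⟨hG, hG2⟩)
      have h3 : F.erase u = G := by
        apply Finset.eq_of_subset_of_card_le h1
        rw [Finset.card_erase_of_mem hu]
        omega
      rw [h3]

theorem facet_card {S : Cplx V} (h : VertexDecomposable S.stackAll) :
    ∃ n : ℕ, ∀ F, S.IsFacet F → F.card = n + 1 := by
  have h0 := empty_mem_of_vd h
  have hp := isPure_of_vd h
  obtain ⟨F₀, hF₀⟩ : ∃ F, S.IsFacet F := by
    rw [mem_stackAll] at h0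
    rcases h0 with ⟨G, hG, hG2, -⟩ | ⟨F, hF, -⟩
    · obtain ⟨F, hF, -⟩ := exists_facet S hG
      exact ⟨F, hF⟩
    · exact ⟨F, hF⟩
  have hcard : ∀ F, S.IsFacet F → F.card = F₀.card := by
    intro F hF
    obtain ⟨u, hu⟩ := facet_nonempty h hF
    obtain ⟨u₀, hu₀⟩ := facet_nonempty h hF₀
    have h1 := hp _ _ (facet_stackAll hF hu) (facet_stackAll hF₀ hu₀)
    rw [Finset.card_disjSum, Finset.card_disjSum, Finset.card_erase_of_mem hu,
      Finset.card_erase_of_mem hu₀] at h1
    have h2 : 1 ≤ F.card := Finset.card_pos.2 ⟨u, hu⟩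
    have h3 : 1 ≤ F₀.card := Finset.card_pos.2 ⟨u₀, hu₀⟩
    simp at h1
    omega
  have h3 : 1 ≤ F₀.card := Finset.card_pos.2 (facet_nonempty h hF₀)
  exact ⟨F₀.card - 1, fun F hF => by rw [hcard F hF]; omega⟩

theorem st_stackAll {S : Cplx V} {n : ℕ} (hn : ∀ F, S.IsFacet F → F.card = n + 1) :
    St n S.stackAll (S.faces.filter S.IsFacet) ∅ id := by
  constructor
  · intro A
    rw [mem_stackAll]
    simp only [Finset.notMem_empty, false_and, exists_false, or_false, Finset.mem_filter, id]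
    constructor
    · rintro (⟨G, hG, hG2, rfl⟩ | ⟨F, hF, G, hG, hG2, rfl⟩)
      · obtain ⟨F, hF, hGF⟩ := exists_facet S hG
        have hne : G ≠ F := fun h => hG2 (h ▸ hF)
        obtain ⟨u, hu, huG⟩ := Finset.exists_of_ssubset (Finset.ssubset_iff_subset_ne.2 ⟨hGF, hne⟩)
        refine ⟨F, ⟨hF.1, hF⟩, u, hu, ?_⟩
        rw [subset_disjSum]
        refine ⟨fun v hv => ?_, fun w' hw' => by simp at hw'⟩
        have hv' : v ∈ G := by simpa using hv
        exact Finset.mem_erase.2 ⟨fun h => huG (h ▸ hv'), hGF hv'⟩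
      · obtain ⟨u, hu, huG⟩ := Finset.exists_of_ssubset (Finset.ssubset_iff_subset_ne.2 ⟨hG, hG2⟩)
        refine ⟨F, ⟨hF.1, hF⟩, u, hu, ?_⟩
        rw [subset_disjSum]
        refine ⟨fun v hv => ?_, fun w' hw' => by simpa using hw'⟩
        have hv' : v ∈ G := by simpa using hv
        exact Finset.mem_erase.2 ⟨fun h => huG (h ▸ hv'), hG hv'⟩
    · rintro ⟨F, ⟨-, hF⟩, u, hu, hA⟩
      have h1 := S.stackAll.down_closed _ (facet_stackAll hF hu).1 A hA
      rwa [mem_stackAll] at h1
  · intro w _; simp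
  · intro w hw
    exact hn w (Finset.mem_filter.1 hw).2
  · intro w hw; simp at hw
  · intro w _ w' _ h; exact h

/-- If the complex obtained by stacking all facets of `S` is vertex-decomposable, then `S` is
shellable. -/
theorem shellable_of_stackAll_vd (S : Cplx V) (h : VertexDecomposable S.stackAll) :
    S.Shellable := by
  obtain ⟨n, hn⟩ := facet_card h
  have h1 := shelled_of_vd h n _ _ _ (st_stackAll hn)
  have h2 := shelled_toLeft h1 (by
    intro G hG w
    rw [KF, Finset.image_empty, Finset.union_empty, Finset.mem_image] at hG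
    obtain ⟨x, _, rfl⟩ := hG
    simp)
  have h3 : (KF (S.faces.filter S.IsFacet) ∅ id).image Finset.toLeft =
      S.faces.filter S.IsFacet := by
    have htl : ∀ a : Finset V, (a.disjSum (∅ : Finset (Finset V))).toLeft = a := by
      intro a; ext x; simp
    rw [KF, Finset.image_empty, Finset.union_empty, Finset.image_image]
    ext F
    rw [Finset.mem_image]
    constructor
    · rintro ⟨a, ha, rfl⟩
      simp only [Function.comp, id, htl]
      exact ha
    · intro hF
      exact ⟨F, hF, by simp only [Function.comp, id, htl]⟩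
  rw [h3] at h2
  obtain ⟨l, hl1, hl2, hl3⟩ := exists_list h2
  refine ⟨fun F G hF hG => by rw [hn F hF, hn G hG], l, hl1, ?_, ?_⟩
  · intro F
    rw [hl2, Finset.mem_filter]
    exact ⟨fun h => h.2, fun h => ⟨h.1, h⟩⟩
  · intro l₁ l₂ F hl hne G hG
    have hstep := hl3 l₁ l₂ F hl
    have hGm := hG.1
    simp only [meetPrev, Finset.mem_filter, Finset.mem_powerset] at hGm
    obtain ⟨hGF, H, hH, hGH⟩ := hGm
    obtain ⟨H', hH', u, hu, h4, h5⟩ := hstep H (List.mem_toFinset.2 hH)
    have h6 : G ⊆ F.erase u := fun x hx => h5 (Finset.mem_inter.2 ⟨hGH hx, hGF hx⟩)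
    have h7 : F.erase u ∈ (meetPrev l₁ F).faces := by
      simp only [meetPrev, Finset.mem_filter, Finset.mem_powerset]
      exact ⟨Finset.erase_subset _ _, H', List.mem_toFinset.1 hH', h4⟩
    rw [← hG.2 _ h7 h6, Finset.card_erase_of_mem hu]
    have := Finset.card_pos.2 ⟨u, hu⟩
    omega

end Pool.Agent.Lib.MP_1611d4_co
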