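import Pool.Agent.Lib.MP_1611d4_co.Defs

/-! Combinatorics of shelling orders, as an inductive predicate on finite families of sets. -/

set_option autoImplicit false

namespace Pool.Agent.Lib.MP_1611d4_co

/-- `F` can be added after the family `A`. -/
def Step {α : Type} [DecidableEq α] (A : Finset (Finset α)) (F : Finset α) : Prop :=
  ∀ G ∈ A, ∃ H ∈ A, ∃ u ∈ F, F.erase u ⊆ H ∧ G ∩ F ⊆ F.erase u

/-- The family can be built up by admissible additions. -/
inductive Shelled {α : Type} [DecidableEq α] : Finset (Finset α) → Prop
  | nil : Shelled ∅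
  | step (A : Finset (Finset α)) (F : Finset α) (hF : F ∉ A) (hA : Shelled A) (hs : Step A F) :
      Shelled (insert F A)

variable {α : Type} [DecidableEq α]

theorem shelled_singleton (F : Finset α) : Shelled {F} := by
  have := Shelled.step ∅ F (by simp) Shelled.nil (by intro G hG; simp at hG)
  simpa using this

theorem shelled_of_subsingleton (A : Finset (Finset α)) (h : ∀ X ∈ A, ∀ Y ∈ A, X = Y) :
    Shelled A := by
  rcases A.eq_empty_or_nonempty with h0 | ⟨X, hX⟩
  · rw [h0]; exact Shelled.nil
  · have : A = {X} := by
      ext Y
      rw [Finset.mem_singleton]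
      exact ⟨fun hY => h Y hY X hX, fun hY => hY ▸ hX⟩
    rw [this]
    exact shelled_singleton X

/-- Removing a free member (a cone over `T` with apex `x` in no other member). -/
theorem remove_flap {n : ℕ} {B : Finset (Finset α)} (hB : Shelled B) :
    ∀ (A : Finset (Finset α)) (x : α) (T : Finset α), x ∉ T → (∀ G ∈ A, x ∉ G) →
      insert (insert x T) A = B → (∀ G ∈ B, G.card = n + 1) → A.Nonempty →
      Shelled A ∧ ∃ H ∈ A, T ⊆ H := by
  induction hB with
  | nil =>
    intro A x T _ _ h
    exact absurd h (Finset.insert_ne_empty _ _)
  | step A₀ F hF hA hs ih =>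
    intro A x T hx hA1 heq hcard hne
    have hxA : insert x T ∉ A := fun h => hA1 _ h (Finset.mem_insert_self _ _)
    by_cases hFx : F = insert x T
    · have hAA : A = A₀ := by
        rw [← Finset.erase_insert hxA, heq, ← hFx, Finset.erase_insert hF]
      subst hAA
      refine ⟨hA, ?_⟩
      obtain ⟨G, hG⟩ := hne
      obtain ⟨H, hH, u, hu, h1, -⟩ := hs G hG
      refine ⟨H, hH, ?_⟩
      have hux : u = x := by
        by_contra hux
        have : x ∈ F.erase u := by
          rw [Finset.mem_erase]
          exact ⟨fun h => hux h.symm, hFx ▸ Finset.mem_insert_self _ _⟩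
        exact hA1 H hH (h1 this)
      intro t ht
      apply h1
      rw [Finset.mem_erase, hFx]
      exact ⟨fun h => hx (by rw [← hux, ← h]; exact ht), Finset.mem_insert_of_mem ht⟩
    · have hFA : F ∈ A := by
        have : F ∈ insert (insert x T) A := heq ▸ Finset.mem_insert_self _ _
        rcases Finset.mem_insert.1 this with h | h
        · exact absurd h hFx
        · exact h
      have hxA₀ : insert x T ∈ A₀ := by
        have : insert x T ∈ insert F A₀ := heq ▸ Finset.mem_insert_self _ _
        rcases Finset.mem_insert.1 this with h | h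
        · exact absurd h.symm hFx
        · exact h
      have hA₀ : insert (insert x T) (A.erase F) = A₀ := by
        rw [← Finset.erase_insert_of_ne (Ne.symm hFx), heq, Finset.erase_insert hF]
      have hins : insert F (A.erase F) = A := Finset.insert_erase hFA
      have hcard₀ : ∀ G ∈ A₀, G.card = n + 1 := fun G hG => hcard G (Finset.mem_insert_of_mem hG)
      have hxF : x ∉ F := hA1 F hFA
      rcases (A.erase F).eq_empty_or_nonempty with h0 | h0
      · have hA' : A = {F} := by rw [← hins, h0]; rfl
        have hA₀' : A₀ = {insert x T} := by rw [← hA₀, h0]; rfl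
        refine ⟨hA' ▸ shelled_singleton F, F, hFA, ?_⟩
        obtain ⟨H, hH, u, hu, h1, -⟩ := hs (insert x T) hxA₀
        rw [hA₀', Finset.mem_singleton] at hH
        subst hH
        have h2 : F.erase u ⊆ T := by
          intro t ht
          rcases Finset.mem_insert.1 (h1 ht) with h | h
          · exact absurd (h ▸ Finset.mem_of_mem_erase ht) hxF
          · exact h
        have h3 : F.card = n + 1 := hcard F (Finset.mem_insert_self _ _)
        have h4 : (insert x T).card = n + 1 := hcard₀ _ hxA₀
        rw [Finset.card_insert_of_notMem hx] at h4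
        have h5 : (F.erase u).card = F.card - 1 := Finset.card_erase_of_mem hu
        have h6 : F.erase u = T := Finset.eq_of_subset_of_card_le h2 (by omega)
        rw [← h6]
        exact Finset.erase_subset _ _
      · obtain ⟨h1, H, hH, hTH⟩ := ih (A.erase F) x T hx
          (fun G hG => hA1 G (Finset.mem_of_mem_erase hG)) hA₀ hcard₀ h0
        have hHA : H ∈ A := Finset.mem_of_mem_erase hH
        refine ⟨?_, H, hHA, hTH⟩
        rw [← hins]
        refine Shelled.step _ _ (Finset.notMem_erase _ _) h1 ?_
        intro G hG
        have hG₀ : G ∈ A₀ := hA₀ ▸ Finset.mem_insert_of_mem hG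
        obtain ⟨H', hH', u, hu, h2, h3⟩ := hs G hG₀
        rw [← hA₀, Finset.mem_insert] at hH'
        rcases hH' with hH' | hH'
        · refine ⟨H, hH, u, hu, ?_, h3⟩
          intro t ht
          have := h2 ht
          rw [hH', Finset.mem_insert] at this
          rcases this with h | h
          · exact absurd (h ▸ Finset.mem_of_mem_erase ht) hxF
          · exact hTH h
        · exact ⟨H', hH', u, hu, h2, h3⟩

/-- Adding a whole star of a new vertex. -/
theorem extend_star {L : Finset (Finset α)} (hL : Shelled L) (A : Finset (Finset α)) (v : α)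
    (hA : Shelled A) (hvA : ∀ G ∈ A, v ∉ G) :
    (∀ T ∈ L, v ∉ T ∧ ∃ H ∈ A, T ⊆ H) → Shelled (A ∪ L.image (insert v)) := by
  induction hL with
  | nil => intro _; simpa using hA
  | step L₀ T hT hL₀ hs ih =>
    intro h
    have ih' := ih (fun T' hT' => h T' (Finset.mem_insert_of_mem hT'))
    obtain ⟨hvT, H₀, hH₀, hTH₀⟩ := h T (Finset.mem_insert_self _ _)
    have hset : A ∪ (insert T L₀).image (insert v) = insert (insert v T)
        (A ∪ L₀.image (insert v)) := by
      rw [Finset.image_insert, Finset.union_insert]
    rw [hset]
    have herase : (insert v T).erase v = T := Finset.erase_insert hvT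
    refine Shelled.step _ _ ?_ ih' ?_
    · rw [Finset.mem_union, Finset.mem_image]
      rintro (h1 | ⟨T', hT', h1⟩)
      · exact hvA _ h1 (Finset.mem_insert_self _ _)
      · have hvT' : v ∉ T' := (h T' (Finset.mem_insert_of_mem hT')).1
        have : T' = T := by
          rw [← Finset.erase_insert hvT', h1, herase]
        exact hT (this ▸ hT')
    · intro G hG
      rw [Finset.mem_union, Finset.mem_image] at hG
      rcases hG with hG | ⟨T', hT', rfl⟩
      · refine ⟨H₀, Finset.mem_union_left _ hH₀, v, Finset.mem_insert_self _ _, ?_, ?_⟩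
        · rw [herase]; exact hTH₀
        · rw [herase]
          intro t ht
          rw [Finset.mem_inter, Finset.mem_insert] at ht
          rcases ht.2 with h1 | h1
          · exact absurd (h1 ▸ ht.1) (hvA G hG)
          · exact h1
      · have hvT' : v ∉ T' := (h T' (Finset.mem_insert_of_mem hT')).1
        obtain ⟨T'', hT'', u, hu, h1, h2⟩ := hs T' hT'
        have huv : u ≠ v := fun h => hvT (h ▸ hu)
        refine ⟨insert v T'', Finset.mem_union_right _ (Finset.mem_image_of_mem _ hT''), u,
          Finset.mem_insert_of_mem hu, ?_, ?_⟩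
        · rw [Finset.erase_insert_of_ne huv.symm]
          exact Finset.insert_subset_insert _ h1
        · rw [Finset.erase_insert_of_ne huv.symm]
          intro t ht
          rw [Finset.mem_inter, Finset.mem_insert, Finset.mem_insert] at ht
          rw [Finset.mem_insert]
          rcases ht.1 with h3 | h3
          · exact Or.inl h3
          · rcases ht.2 with h4 | h4
            · exact Or.inl h4
            · exact Or.inr (h2 (Finset.mem_inter.2 ⟨h3, h4⟩))

/-- Passing from the copy on the left summand back to the original vertices. -/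
theorem shelled_toLeft {V W : Type} [DecidableEq V] [DecidableEq W] {B : Finset (Finset (V ⊕ W))} (hB : Shelled B) :
    (∀ G ∈ B, ∀ w, Sum.inr w ∉ G) → Shelled (B.image Finset.toLeft) := by
  induction hB with
  | nil => intro _; simpa using Shelled.nil
  | step B₀ F hF hB₀ hs ih =>
    intro h
    have ih' := ih (fun G hG => h G (Finset.mem_insert_of_mem hG))
    rw [Finset.image_insert]
    have hFr := h F (Finset.mem_insert_self _ _)
    refine Shelled.step _ _ ?_ ih' ?_
    · rw [Finset.mem_image]
      rintro ⟨G, hG, h1⟩
      have hGr := h G (Finset.mem_insert_of_mem hG)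
      apply hF
      have : F = G := by
        ext x
        rcases x with x | x
        · rw [← Finset.mem_toLeft, ← Finset.mem_toLeft, h1]
        · exact ⟨fun h => absurd h (hFr x), fun h => absurd h (hGr x)⟩
      exact this ▸ hG
    · intro G' hG'
      rw [Finset.mem_image] at hG'
      obtain ⟨G, hG, rfl⟩ := hG'
      obtain ⟨H, hH, u, hu, h1, h2⟩ := hs G hG
      rcases u with u | u
      · refine ⟨H.toLeft, Finset.mem_image_of_mem _ hH, u, Finset.mem_toLeft.2 hu, ?_, ?_⟩
        · intro t ht
          rw [Finset.mem_erase, Finset.mem_toLeft] at ht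
          rw [Finset.mem_toLeft]
          apply h1
          rw [Finset.mem_erase]
          exact ⟨fun h => ht.1 (Sum.inl_injective h), ht.2⟩
        · intro t ht
          rw [Finset.mem_inter, Finset.mem_toLeft, Finset.mem_toLeft] at ht
          have := h2 (Finset.mem_inter.2 ht)
          rw [Finset.mem_erase] at this
          rw [Finset.mem_erase, Finset.mem_toLeft]
          exact ⟨fun h => this.1 (congrArg _ h), this.2⟩
      · exact absurd hu (hFr u)

/-- From the inductive predicate to an actual list. -/
theorem exists_list {A : Finset (Finset α)} (hA : Shelled A) :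
    ∃ l : List (Finset α), l.Nodup ∧ (∀ F, F ∈ l ↔ F ∈ A) ∧
      ∀ (l₁ l₂ : List (Finset α)) (F : Finset α), l = l₁ ++ F :: l₂ → Step l₁.toFinset F := by
  induction hA with
  | nil => exact ⟨[], List.nodup_nil, by simp, by intro l₁ l₂ F h; simp at h⟩
  | step A F hF hA hs ih =>
    obtain ⟨l, hn, hm, hl⟩ := ih
    refine ⟨l ++ [F], ?_, ?_, ?_⟩
    · rw [List.nodup_append]
      refine ⟨hn, List.nodup_singleton _, ?_⟩
      intro a ha b hb
      rw [List.mem_singleton] at hb
      rw [hb]
      rintro rfl
      exact hF ((hm _).1 ha)
    · intro G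
      rw [List.mem_append, List.mem_singleton, hm, Finset.mem_insert]
      tauto
    · intro l₁ l₂ G h
      rcases List.eq_nil_or_concat l₂ with h2 | ⟨l₃, b, h2⟩
      · subst h2
        have h3 := List.append_inj' h rfl
        have h4 : F = G := by simpa using h3.2
        rw [← h3.1, ← h4]
        have : l.toFinset = A := by ext x; rw [List.mem_toFinset, hm]
        rw [this]
        exact hs
      · subst h2
        have h3 : l ++ [F] = (l₁ ++ G :: l₃) ++ [b] := by
          rw [h]; simp
        have h4 := List.append_inj' h3 rfl
        exact hl l₁ l₃ G h4.1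

end Pool.Agent.Lib.MP_1611d4_co
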