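import Pool.Agent.Lib.MP_1611d4_co.Shell

/-! The complexes that occur in a vertex decomposition of a stacked complex. -/

set_option autoImplicit false

namespace Pool.Agent.Lib.MP_1611d4_co

open Cplx

variable {V W : Type} [DecidableEq V] [DecidableEq W]

/-- `K` is generated by the stackings (with new vertex `w`) of the `n`-simplices `φ w`, `w ∈ R`,
and the cones (with apex `w`) over the `(n-1)`-simplices `φ w`, `w ∈ P`. -/
structure St (n : ℕ) (K : Cplx (V ⊕ W)) (R P : Finset W) (φ : W → Finset V) : Prop where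
  mem : ∀ A, A ∈ K.faces ↔
    (∃ w ∈ R, ∃ u ∈ φ w, A ⊆ ((φ w).erase u).disjSum {w}) ∨ ∃ w ∈ P, A ⊆ (φ w).disjSum {w}
  disj : ∀ w ∈ R, w ∉ P
  cardR : ∀ w ∈ R, (φ w).card = n + 1
  cardP : ∀ w ∈ P, (φ w).card = n
  inj : ∀ w ∈ R, ∀ w' ∈ R, φ w = φ w' → w = w'

/-- The family obtained by putting back the simplices `φ w`, `w ∈ R`. -/
def KF (R P : Finset W) (φ : W → Finset V) : Finset (Finset (V ⊕ W)) :=
  R.image (fun w => (φ w).disjSum ∅) ∪ P.image (fun w => (φ w).disjSum {w})

theorem subset_disjSum {A : Finset (V ⊕ W)} {T : Finset V} {w : W} :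
    A ⊆ T.disjSum {w} ↔ (∀ v, Sum.inl v ∈ A → v ∈ T) ∧ ∀ w', Sum.inr w' ∈ A → w' = w := by
  constructor
  · intro h
    exact ⟨fun v hv => by simpa using h hv, fun w' hw' => by simpa using h hw'⟩
  · rintro ⟨h1, h2⟩ (x | x) hx
    · simpa using h1 x hx
    · simpa using h2 x hx

theorem subset_disjSum_empty {A : Finset (V ⊕ W)} {T : Finset V} :
    A ⊆ T.disjSum ∅ ↔ (∀ v, Sum.inl v ∈ A → v ∈ T) ∧ ∀ w', Sum.inr w' ∉ A := by
  constructor
  · intro h
    exact ⟨fun v hv => by simpa using h hv, fun w' hw' => by simpa using h hw'⟩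
  · rintro ⟨h1, h2⟩ (x | x) hx
    · simpa using h1 x hx
    · exact absurd hx (h2 x)

section

variable {n : ℕ} {K : Cplx (V ⊕ W)} {R P : Finset W} {φ : W → Finset V}

theorem St.single (h : St n K R P φ) {A : Finset (V ⊕ W)} (hA : A ∈ K.faces) {w w' : W}
    (hw : Sum.inr w ∈ A) (hw' : Sum.inr w' ∈ A) : w = w' := by
  rcases (h.mem A).1 hA with ⟨x, _, u, _, h1⟩ | ⟨x, _, h1⟩
  · rw [subset_disjSum] at h1
    rw [h1.2 w hw, h1.2 w' hw']
  · rw [subset_disjSum] at h1
    rw [h1.2 w hw, h1.2 w' hw']

theorem St.vertex (h : St n K R P φ) {w : W} (hw : w ∈ R ∨ w ∈ P) :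
    {Sum.inr w} ∈ K.faces := by
  rw [h.mem]
  rcases hw with hw | hw
  · left
    have : (φ w).Nonempty := by
      rw [← Finset.card_pos, h.cardR w hw]; omega
    obtain ⟨u, hu⟩ := this
    exact ⟨w, hw, u, hu, by simp⟩
  · right
    exact ⟨w, hw, by simp⟩

theorem St.card_le (h : St n K R P φ) {A : Finset (V ⊕ W)} (hA : A ∈ K.faces) :
    A.card ≤ n + 1 := by
  rcases (h.mem A).1 hA with ⟨x, hx, u, hu, h1⟩ | ⟨x, hx, h1⟩
  · refine (Finset.card_le_card h1).trans ?_
    rw [Finset.card_disjSum, Finset.card_erase_of_mem hu, h.cardR x hx]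
    simp
  · refine (Finset.card_le_card h1).trans ?_
    rw [Finset.card_disjSum, h.cardP x hx]
    simp

/-- The case of a simplex. -/
theorem St.shelled_of_simplex {F : Finset (V ⊕ W)} (h : St n (simplex F) R P φ) :
    Shelled (KF R P φ) := by
  have h0 : ∀ w, (w ∈ R ∨ w ∈ P) → Sum.inr w ∈ F := by
    intro w hw
    have := h.vertex hw
    simpa [simplex] using this
  have h1 : ∀ w w', (w ∈ R ∨ w ∈ P) → (w' ∈ R ∨ w' ∈ P) → w = w' := by
    intro w w' hw hw'
    exact h.single (A := F) (by simp [simplex]) (h0 w hw) (h0 w' hw')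
  apply shelled_of_subsingleton
  intro X hX Y hY
  rw [KF, Finset.mem_union, Finset.mem_image, Finset.mem_image] at hX hY
  rcases hX with ⟨w, hw, rfl⟩ | ⟨w, hw, rfl⟩ <;> rcases hY with ⟨w', hw', rfl⟩ | ⟨w', hw', rfl⟩
  · rw [h1 w w' (Or.inl hw) (Or.inl hw')]
  · exact absurd (h1 w w' (Or.inl hw) (Or.inr hw') ▸ hw') (h.disj w hw)
  · exact absurd (h1 w' w (Or.inl hw') (Or.inr hw) ▸ hw) (h.disj w' hw')
  · rw [h1 w w' (Or.inr hw) (Or.inr hw')]

/-- Deleting the apex of a cone. -/
theorem St.del_apex (h : St n K R P φ) {w : W} (hw : w ∈ P)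
    (hfacet : ∀ F : Finset (V ⊕ W), (K.link (Sum.inr w)).IsFacet F →
      ¬ (K.del (Sum.inr w)).IsFacet F) :
    (∃ A, A ∈ KF R (P.erase w) φ ∧ (φ w).disjSum ∅ ⊆ A) ∧
    St n (K.del (Sum.inr w)) R (P.erase w) φ := by
  have hwR : w ∉ R := fun h' => h.disj w h' hw
  have hins : insert (Sum.inr w) ((φ w).disjSum ∅) = (φ w).disjSum {w} := by
    ext x; rcases x with x | x <;> simp
  have hlinkmem : ∀ A, A ∈ (K.link (Sum.inr w)).faces ↔ A ⊆ (φ w).disjSum ∅ := by
    intro A
    simp only [link, Finset.mem_filter]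
    rw [subset_disjSum_empty]
    constructor
    · rintro ⟨_, h1, h2⟩
      rcases (h.mem _).1 h2 with ⟨x, hx, u, hu, h3⟩ | ⟨x, hx, h3⟩
      · rw [subset_disjSum] at h3
        have := h3.2 w (Finset.mem_insert_self _ _)
        exact absurd (this ▸ hx) hwR
      · rw [subset_disjSum] at h3
        have := h3.2 w (Finset.mem_insert_self _ _)
        subst this
        refine ⟨fun v hv => h3.1 v (Finset.mem_insert_of_mem hv), fun w' hw' => h1 ?_⟩
        have := h3.2 w' (Finset.mem_insert_of_mem hw')
        rw [← this]; exact hw'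
    · rintro ⟨h1, h2⟩
      have hK : insert (Sum.inr w) A ∈ K.faces := by
        rw [h.mem]
        right
        refine ⟨w, hw, ?_⟩
        rw [subset_disjSum]
        constructor
        · intro v hv
          rw [Finset.mem_insert] at hv
          rcases hv with hv | hv
          · simp at hv
          · exact h1 v hv
        · intro w' hw'
          rw [Finset.mem_insert] at hw'
          rcases hw' with hw' | hw'
          · simpa using hw'
          · exact absurd hw' (h2 w')
      exact ⟨K.down_closed _ hK _ (Finset.subset_insert _ _), h2 w, hK⟩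
  have hfac : (K.link (Sum.inr w)).IsFacet ((φ w).disjSum ∅) := by
    refine ⟨(hlinkmem _).2 (Finset.Subset.refl _), ?_⟩
    intro G hG hG2
    exact Finset.Subset.antisymm ((hlinkmem G).1 hG) hG2
  have hnf := hfacet _ hfac
  have hmemdel : (φ w).disjSum ∅ ∈ (K.del (Sum.inr w)).faces := by
    have := (hlinkmem ((φ w).disjSum ∅)).2 (Finset.Subset.refl _)
    simp only [link, del, Finset.mem_filter] at this ⊢
    exact ⟨this.1, this.2.1⟩
  obtain ⟨G, hG, hG2, hG3⟩ : ∃ G ∈ (K.del (Sum.inr w)).faces, (φ w).disjSum ∅ ⊆ G ∧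
      G ≠ (φ w).disjSum ∅ := by
    by_contra hcon
    push Not at hcon
    exact hnf ⟨hmemdel, hcon⟩
  have hGd : G ∈ K.faces ∧ Sum.inr w ∉ G := by
    simpa only [del, Finset.mem_filter] using hG
  have key : (∃ x ∈ R, ∃ u ∈ φ x, G ⊆ ((φ x).erase u).disjSum {x}) ∨
      ∃ x ∈ P, x ≠ w ∧ G ⊆ (φ x).disjSum {x} := by
    rcases (h.mem G).1 hGd.1 with h1 | ⟨x, hx, h1⟩
    · exact Or.inl h1
    · by_cases hxw : x = w
      · subst hxw
        exfalso
        apply hG3
        refine Finset.Subset.antisymm ?_ hG2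
        rw [subset_disjSum] at h1
        rw [subset_disjSum_empty]
        exact ⟨h1.1, fun w' hw' => hGd.2 (h1.2 w' hw' ▸ hw')⟩
      · exact Or.inr ⟨x, hx, hxw, h1⟩
  refine ⟨?_, ?_, ?_, ?_, ?_, ?_⟩
  · rcases key with ⟨x, hx, u, hu, h1⟩ | ⟨x, hx, hxw, h1⟩
    · refine ⟨(φ x).disjSum ∅, ?_, ?_⟩
      · rw [KF, Finset.mem_union, Finset.mem_image]
        exact Or.inl ⟨x, hx, rfl⟩
      · have h2 := hG2.trans h1
        rw [subset_disjSum] at h2
        rw [subset_disjSum_empty]
        exact ⟨fun v hv => Finset.mem_of_mem_erase (h2.1 v hv), fun w' hw' => by simp at hw'⟩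
    · refine ⟨(φ x).disjSum {x}, ?_, hG2.trans h1⟩
      rw [KF, Finset.mem_union, Finset.mem_image, Finset.mem_image]
      exact Or.inr ⟨x, Finset.mem_erase.2 ⟨hxw, hx⟩, rfl⟩
  · intro A
    simp only [del, Finset.mem_filter]
    constructor
    · rintro ⟨hA, hwA⟩
      rcases (h.mem A).1 hA with h1 | ⟨x, hx, h1⟩
      · exact Or.inl h1
      · by_cases hxw : x = w
        · subst hxw
          have hAG : A ⊆ G := by
            refine Finset.Subset.trans ?_ hG2
            rw [subset_disjSum] at h1
            rw [subset_disjSum_empty]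
            exact ⟨h1.1, fun w' hw' => hwA (h1.2 w' hw' ▸ hw')⟩
          rcases key with ⟨y, hy, u, hu, h2⟩ | ⟨y, hy, hyw, h2⟩
          · exact Or.inl ⟨y, hy, u, hu, hAG.trans h2⟩
          · exact Or.inr ⟨y, Finset.mem_erase.2 ⟨hyw, hy⟩, hAG.trans h2⟩
        · exact Or.inr ⟨x, Finset.mem_erase.2 ⟨hxw, hx⟩, h1⟩
    · rintro (⟨x, hx, u, hu, h1⟩ | ⟨x, hx, h1⟩)
      · refine ⟨(h.mem A).2 (Or.inl ⟨x, hx, u, hu, h1⟩), fun hwA => ?_⟩
        rw [subset_disjSum] at h1
        exact hwR ((h1.2 w hwA) ▸ hx)
      · rw [Finset.mem_erase] at hx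
        refine ⟨(h.mem A).2 (Or.inr ⟨x, hx.2, h1⟩), fun hwA => ?_⟩
        rw [subset_disjSum] at h1
        exact hx.1 (h1.2 w hwA).symm
  · intro x hx hx2
    exact h.disj x hx (Finset.mem_of_mem_erase hx2)
  · exact h.cardR
  · intro x hx
    exact h.cardP x (Finset.mem_of_mem_erase hx)
  · exact h.inj

/-- Deleting the apex of a stacked simplex. -/
theorem St.del_stack (h : St n K R P φ) {w : W} (hw : w ∈ R)
    (hfacet : ∀ F : Finset (V ⊕ W), (K.link (Sum.inr w)).IsFacet F →
      ¬ (K.del (Sum.inr w)).IsFacet F) :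
    (∀ u ∈ φ w, ∃ A, A ∈ KF (R.erase w) P φ ∧ ((φ w).erase u).disjSum ∅ ⊆ A) ∧
    St n (K.del (Sum.inr w)) (R.erase w) P φ := by
  have hwP : w ∉ P := h.disj w hw
  have hlinkmem : ∀ A, A ∈ (K.link (Sum.inr w)).faces ↔
      ∃ u ∈ φ w, A ⊆ ((φ w).erase u).disjSum ∅ := by
    intro A
    simp only [link, Finset.mem_filter]
    constructor
    · rintro ⟨_, h1, h2⟩
      rcases (h.mem _).1 h2 with ⟨x, hx, u, hu, h3⟩ | ⟨x, hx, h3⟩
      · rw [subset_disjSum] at h3
        have := h3.2 w (Finset.mem_insert_self _ _)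
        subst this
        refine ⟨u, hu, ?_⟩
        rw [subset_disjSum_empty]
        refine ⟨fun v hv => h3.1 v (Finset.mem_insert_of_mem hv), fun w' hw' => h1 ?_⟩
        have := h3.2 w' (Finset.mem_insert_of_mem hw')
        rw [← this]; exact hw'
      · rw [subset_disjSum] at h3
        have := h3.2 w (Finset.mem_insert_self _ _)
        exact absurd (this ▸ hx) hwP
    · rintro ⟨u, hu, h0⟩
      rw [subset_disjSum_empty] at h0
      obtain ⟨h1, h2⟩ := h0
      have hK : insert (Sum.inr w) A ∈ K.faces := by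
        rw [h.mem]
        left
        refine ⟨w, hw, u, hu, ?_⟩
        rw [subset_disjSum]
        constructor
        · intro v hv
          rw [Finset.mem_insert] at hv
          rcases hv with hv | hv
          · simp at hv
          · exact h1 v hv
        · intro w' hw'
          rw [Finset.mem_insert] at hw'
          rcases hw' with hw' | hw'
          · simpa using hw'
          · exact absurd hw' (h2 w')
      exact ⟨K.down_closed _ hK _ (Finset.subset_insert _ _), h2 w, hK⟩
  have hbig : ∀ u ∈ φ w, ∃ G ∈ K.faces, Sum.inr w ∉ G ∧ ((φ w).erase u).disjSum ∅ ⊆ G ∧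
      n + 1 ≤ G.card := by
    intro u hu
    have hcu : (((φ w).erase u).disjSum (∅ : Finset W)).card = n := by
      rw [Finset.card_disjSum, Finset.card_erase_of_mem hu, h.cardR w hw]; simp
    have hfac : (K.link (Sum.inr w)).IsFacet (((φ w).erase u).disjSum ∅) := by
      refine ⟨(hlinkmem _).2 ⟨u, hu, Finset.Subset.refl _⟩, ?_⟩
      intro G hG hG2
      obtain ⟨u', hu', hG3⟩ := (hlinkmem G).1 hG
      have hcu' : (((φ w).erase u').disjSum (∅ : Finset W)).card = n := by
        rw [Finset.card_disjSum, Finset.card_erase_of_mem hu', h.cardR w hw]; simp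
      have h4 := Finset.card_le_card hG3
      exact (Finset.eq_of_subset_of_card_le hG2 (by omega)).symm
    have hnf := hfacet _ hfac
    have hmemdel : ((φ w).erase u).disjSum ∅ ∈ (K.del (Sum.inr w)).faces := by
      have := hfac.1
      simp only [link, del, Finset.mem_filter] at this ⊢
      exact ⟨this.1, this.2.1⟩
    obtain ⟨G, hG, hG2, hG3⟩ : ∃ G ∈ (K.del (Sum.inr w)).faces,
        ((φ w).erase u).disjSum ∅ ⊆ G ∧ G ≠ ((φ w).erase u).disjSum ∅ := by
      by_contra hcon
      push Not at hcon
      exact hnf ⟨hmemdel, hcon⟩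
    have hGd : G ∈ K.faces ∧ Sum.inr w ∉ G := by
      simpa only [del, Finset.mem_filter] using hG
    refine ⟨G, hGd.1, hGd.2, hG2, ?_⟩
    by_contra hlt
    apply hG3
    exact (Finset.eq_of_subset_of_card_le hG2 (by omega)).symm
  have key : ∀ u ∈ φ w, ∃ G, ((φ w).erase u).disjSum ∅ ⊆ G ∧
      ((∃ x ∈ R, x ≠ w ∧ ∃ u ∈ φ x, G ⊆ ((φ x).erase u).disjSum {x}) ∨
      ∃ x ∈ P, G ⊆ (φ x).disjSum {x}) := by
    intro u hu
    obtain ⟨G, hG, hwG, hG2, hG3⟩ := hbig u hu
    refine ⟨G, hG2, ?_⟩
    rcases (h.mem G).1 hG with ⟨x, hx, u', hu', h1⟩ | h1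
    · left
      refine ⟨x, hx, ?_, u', hu', h1⟩
      rintro rfl
      have h2 : G ⊆ ((φ x).erase u').disjSum ∅ := by
        rw [subset_disjSum] at h1
        rw [subset_disjSum_empty]
        exact ⟨h1.1, fun w' hw' => hwG (h1.2 w' hw' ▸ hw')⟩
      have h3 := Finset.card_le_card h2
      rw [Finset.card_disjSum, Finset.card_erase_of_mem hu', h.cardR x hx] at h3
      simp at h3
      omega
    · exact Or.inr h1
  refine ⟨?_, ?_, ?_, ?_, ?_, ?_⟩
  · intro u hu
    obtain ⟨G, hG2, hk⟩ := key u hu
    rcases hk with ⟨x, hx, hxw, u', hu', h1⟩ | ⟨x, hx, h1⟩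
    · refine ⟨(φ x).disjSum ∅, ?_, ?_⟩
      · rw [KF, Finset.mem_union, Finset.mem_image]
        exact Or.inl ⟨x, Finset.mem_erase.2 ⟨hxw, hx⟩, rfl⟩
      · have h2 := hG2.trans h1
        rw [subset_disjSum] at h2
        rw [subset_disjSum_empty]
        exact ⟨fun v hv => Finset.mem_of_mem_erase (h2.1 v hv), fun w' hw' => by simp at hw'⟩
    · refine ⟨(φ x).disjSum {x}, ?_, hG2.trans h1⟩
      rw [KF, Finset.mem_union, Finset.mem_image, Finset.mem_image]
      exact Or.inr ⟨x, hx, rfl⟩
  · intro A
    simp only [del, Finset.mem_filter]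
    constructor
    · rintro ⟨hA, hwA⟩
      rcases (h.mem A).1 hA with ⟨x, hx, u, hu, h1⟩ | h1
      · by_cases hxw : x = w
        · subst hxw
          obtain ⟨G, hG2, hk⟩ := key u hu
          have hAG : A ⊆ G := by
            refine Finset.Subset.trans ?_ hG2
            rw [subset_disjSum] at h1
            rw [subset_disjSum_empty]
            exact ⟨h1.1, fun w' hw' => hwA (h1.2 w' hw' ▸ hw')⟩
          rcases hk with ⟨y, hy, hyw, u, hu, h2⟩ | ⟨y, hy, h2⟩
          · exact Or.inl ⟨y, Finset.mem_erase.2 ⟨hyw, hy⟩, u, hu, hAG.trans h2⟩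
          · exact Or.inr ⟨y, hy, hAG.trans h2⟩
        · exact Or.inl ⟨x, Finset.mem_erase.2 ⟨hxw, hx⟩, u, hu, h1⟩
      · exact Or.inr h1
    · rintro (⟨x, hx, u, hu, h1⟩ | ⟨x, hx, h1⟩)
      · rw [Finset.mem_erase] at hx
        refine ⟨(h.mem A).2 (Or.inl ⟨x, hx.2, u, hu, h1⟩), fun hwA => ?_⟩
        rw [subset_disjSum] at h1
        exact hx.1 (h1.2 w hwA).symm
      · refine ⟨(h.mem A).2 (Or.inr ⟨x, hx, h1⟩), fun hwA => ?_⟩
        rw [subset_disjSum] at h1
        exact hwP ((h1.2 w hwA) ▸ hx)
  · intro x hx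
    exact h.disj x (Finset.mem_of_mem_erase hx)
  · intro x hx
    exact h.cardR x (Finset.mem_of_mem_erase hx)
  · exact h.cardP
  · intro x hx y hy
    exact h.inj x (Finset.mem_of_mem_erase hx) y (Finset.mem_of_mem_erase hy)

/-- A vertex deleted from the old vertices lies in no cone. -/
theorem St.not_mem_cone (h : St n K R P φ) {v : V}
    (hfacet : ∀ F : Finset (V ⊕ W), (K.link (Sum.inl v)).IsFacet F →
      ¬ (K.del (Sum.inl v)).IsFacet F) {w : W} (hw : w ∈ P) : v ∉ φ w := by
  intro hv
  have hA : (φ w).disjSum {w} ∈ K.faces := (h.mem _).2 (Or.inr ⟨w, hw, Finset.Subset.refl _⟩)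
  have hmem : ∀ G ∈ K.faces, Sum.inl v ∉ G → ((φ w).erase v).disjSum {w} ⊆ G →
      G = ((φ w).erase v).disjSum {w} := by
    intro G hG hvG hsub
    refine Finset.Subset.antisymm ?_ hsub
    have hwG : Sum.inr w ∈ G := hsub (by simp)
    rcases (h.mem G).1 hG with ⟨x, hx, u, hu, h1⟩ | ⟨x, hx, h1⟩
    · rw [subset_disjSum] at h1
      have := h1.2 w hwG
      exact absurd hw (h.disj w (this ▸ hx))
    · rw [subset_disjSum] at h1
      have := h1.2 w hwG
      subst this
      rw [subset_disjSum]
      refine ⟨fun y hy => ?_, h1.2⟩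
      rw [Finset.mem_erase]
      refine ⟨?_, h1.1 y hy⟩
      rintro rfl
      exact hvG hy
  have hins : insert (Sum.inl v) (((φ w).erase v).disjSum {w}) = (φ w).disjSum {w} := by
    ext x
    rcases x with x | x
    · simp only [Finset.mem_insert, Finset.inl_mem_disjSum, Finset.mem_erase, Sum.inl.injEq]
      by_cases hxv : x = v
      · simp [hxv, hv]
      · simp [hxv]
    · simp
  have hK0 : ((φ w).erase v).disjSum {w} ∈ K.faces := by
    refine K.down_closed _ hA _ ?_
    rw [← hins]; exact Finset.subset_insert _ _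
  have hv0 : Sum.inl v ∉ ((φ w).erase v).disjSum {w} := by simp
  apply hfacet (((φ w).erase v).disjSum {w})
  · constructor
    · simp only [link, Finset.mem_filter]
      exact ⟨hK0, hv0, by rw [hins]; exact hA⟩
    · intro G hG hsub
      simp only [link, Finset.mem_filter] at hG
      exact hmem G hG.1 hG.2.1 hsub
  · constructor
    · simp only [del, Finset.mem_filter]
      exact ⟨hK0, hv0⟩
    · intro G hG hsub
      simp only [del, Finset.mem_filter] at hG
      exact hmem G hG.1 hG.2 hsub

/-- The link of an old vertex. -/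
theorem St.link_old {m : ℕ} (h : St (m + 1) K R P φ) {v : V} (hP : ∀ w ∈ P, v ∉ φ w) :
    St m (K.link (Sum.inl v)) (R.filter (fun w => v ∈ φ w)) ∅ (fun w => (φ w).erase v) := by
  constructor
  · intro A
    simp only [link, Finset.mem_filter, Finset.notMem_empty, false_and, exists_false, or_false]
    constructor
    · rintro ⟨_, h1, h2⟩
      rcases (h.mem _).1 h2 with ⟨x, hx, u, hu, h3⟩ | ⟨x, hx, h3⟩
      · rw [subset_disjSum] at h3
        have hv := h3.1 v (Finset.mem_insert_self _ _)
        rw [Finset.mem_erase] at hv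
        refine ⟨x, ⟨hx, hv.2⟩, u, Finset.mem_erase.2 ⟨Ne.symm hv.1, hu⟩, ?_⟩
        rw [subset_disjSum]
        refine ⟨fun y hy => ?_, fun w' hw' => h3.2 w' (Finset.mem_insert_of_mem hw')⟩
        have := h3.1 y (Finset.mem_insert_of_mem hy)
        rw [Finset.mem_erase] at this ⊢
        rw [Finset.mem_erase]
        refine ⟨this.1, ?_, this.2⟩
        rintro rfl
        exact h1 hy
      · rw [subset_disjSum] at h3
        exact absurd (h3.1 v (Finset.mem_insert_self _ _)) (hP x hx)
    · rintro ⟨x, ⟨hx, hvx⟩, u, hu, h1⟩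
      rw [Finset.mem_erase] at hu
      rw [subset_disjSum] at h1
      have hvA : Sum.inl v ∉ A := by
        intro hv
        have := h1.1 v hv
        simp at this
      have hK : insert (Sum.inl v) A ∈ K.faces := by
        rw [h.mem]
        left
        refine ⟨x, hx, u, hu.2, ?_⟩
        rw [subset_disjSum]
        constructor
        · intro y hy
          rw [Finset.mem_insert] at hy
          rcases hy with hy | hy
          · have : y = v := by simpa using hy
            subst this
            rw [Finset.mem_erase]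
            exact ⟨Ne.symm hu.1, hvx⟩
          · have := h1.1 y hy
            rw [Finset.mem_erase, Finset.mem_erase] at this
            rw [Finset.mem_erase]
            exact ⟨this.1, this.2.2⟩
        · intro w' hw'
          rw [Finset.mem_insert] at hw'
          rcases hw' with hw' | hw'
          · simp at hw'
          · exact h1.2 w' hw'
      exact ⟨K.down_closed _ hK _ (Finset.subset_insert _ _), hvA, hK⟩
  · intro w _; simp
  · intro w hw
    rw [Finset.mem_filter] at hw
    show ((φ w).erase v).card = m + 1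
    rw [Finset.card_erase_of_mem hw.2, h.cardR w hw.1]
    rfl
  · intro w hw
    simp at hw
  · intro w hw w' hw' heq
    rw [Finset.mem_filter] at hw hw'
    apply h.inj w hw.1 w' hw'.1
    rw [← Finset.insert_erase hw.2, ← Finset.insert_erase hw'.2]
    exact congrArg _ heq

/-- The deletion of an old vertex. -/
theorem St.del_old (h : St n K R P φ) {v : V} (hP : ∀ w ∈ P, v ∉ φ w) :
    St n (K.del (Sum.inl v)) (R.filter (fun w => v ∉ φ w)) (P ∪ R.filter (fun w => v ∈ φ w))
      (fun w => (φ w).erase v) := by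
  constructor
  · intro A
    simp only [del, Finset.mem_filter, Finset.mem_union]
    constructor
    · rintro ⟨h1, h2⟩
      rcases (h.mem _).1 h1 with ⟨x, hx, u, hu, h3⟩ | ⟨x, hx, h3⟩
      · rw [subset_disjSum] at h3
        by_cases hvx : v ∈ φ x
        · right
          refine ⟨x, Or.inr ⟨hx, hvx⟩, ?_⟩
          rw [subset_disjSum]
          refine ⟨fun y hy => ?_, h3.2⟩
          rw [Finset.mem_erase]
          refine ⟨?_, Finset.mem_of_mem_erase (h3.1 y hy)⟩
          rintro rfl
          exact h2 hy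
        · left
          refine ⟨x, ⟨hx, hvx⟩, u, ?_, ?_⟩
          · rw [Finset.mem_erase]
            exact ⟨fun h => hvx (h ▸ hu), hu⟩
          · rw [subset_disjSum, Finset.erase_eq_of_notMem hvx]
            exact h3
      · right
        refine ⟨x, Or.inl hx, ?_⟩
        rw [Finset.erase_eq_of_notMem (hP x hx)]
        exact h3
    · rintro (⟨x, ⟨hx, hvx⟩, u, hu, h1⟩ | ⟨x, hx | ⟨hx, hvx⟩, h1⟩)
      · rw [Finset.erase_eq_of_notMem hvx] at hu h1
        refine ⟨(h.mem A).2 (Or.inl ⟨x, hx, u, hu, h1⟩), fun hv => ?_⟩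
        rw [subset_disjSum] at h1
        exact hvx (Finset.mem_of_mem_erase (h1.1 v hv))
      · rw [Finset.erase_eq_of_notMem (hP x hx)] at h1
        refine ⟨(h.mem A).2 (Or.inr ⟨x, hx, h1⟩), fun hv => ?_⟩
        rw [subset_disjSum] at h1
        exact hP x hx (h1.1 v hv)
      · refine ⟨(h.mem A).2 (Or.inl ⟨x, hx, v, hvx, h1⟩), fun hv => ?_⟩
        rw [subset_disjSum] at h1
        have := h1.1 v hv
        simp at this
  · intro w hw
    rw [Finset.mem_filter] at hw
    rw [Finset.mem_union, Finset.mem_filter]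
    rintro (h1 | h1)
    · exact h.disj w hw.1 h1
    · exact hw.2 h1.2
  · intro w hw
    rw [Finset.mem_filter] at hw
    show ((φ w).erase v).card = n + 1
    rw [Finset.erase_eq_of_notMem hw.2, h.cardR w hw.1]
  · intro w hw
    rw [Finset.mem_union, Finset.mem_filter] at hw
    show ((φ w).erase v).card = n
    rcases hw with hw | hw
    · rw [Finset.erase_eq_of_notMem (hP w hw), h.cardP w hw]
    · rw [Finset.card_erase_of_mem hw.2, h.cardR w hw.1]
      rfl
  · intro w hw w' hw' heq
    rw [Finset.mem_filter] at hw hw'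
    apply h.inj w hw.1 w' hw'.1
    have heq' : (φ w).erase v = (φ w').erase v := heq
    rw [Finset.erase_eq_of_notMem hw.2, Finset.erase_eq_of_notMem hw'.2] at heq'
    exact heq'

/-- Putting everything together for an old vertex. -/
theorem St.combine (h : St n K R P φ) {v : V} (hP : ∀ w ∈ P, v ∉ φ w)
    (hl : Shelled (KF (R.filter (fun w => v ∈ φ w)) ∅ (fun w => (φ w).erase v)))
    (hd : Shelled (KF (R.filter (fun w => v ∉ φ w)) (P ∪ R.filter (fun w => v ∈ φ w))
      (fun w => (φ w).erase v))) :
    Shelled (KF R P φ) := by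
  set Rv := R.filter (fun w => v ∈ φ w) with hRv
  set R' := R.filter (fun w => v ∉ φ w) with hR'
  have hRvR : ∀ w ∈ Rv, w ∈ R ∧ v ∈ φ w := fun w hw => by rwa [hRv, Finset.mem_filter] at hw
  have hR'R : ∀ w ∈ R', w ∈ R ∧ v ∉ φ w := fun w hw => by rwa [hR', Finset.mem_filter] at hw
  set flap : W → Finset (V ⊕ W) := fun w => ((φ w).erase v).disjSum {w} with hflap
  set A := KF R' P φ with hAdef
  -- members of A
  have hAmem : ∀ G ∈ A, (∀ w ∈ Rv, Sum.inr w ∉ G) ∧ Sum.inl v ∉ G ∧ G.card = n + 1 := by
    intro G hG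
    rw [hAdef, KF, Finset.mem_union, Finset.mem_image, Finset.mem_image] at hG
    rcases hG with ⟨w, hw, rfl⟩ | ⟨w, hw, rfl⟩
    · refine ⟨fun w' _ => by simp, ?_, ?_⟩
      · simpa using (hR'R w hw).2
      · rw [Finset.card_disjSum, h.cardR w (hR'R w hw).1]; simp
    · refine ⟨fun w' hw' => ?_, ?_, ?_⟩
      · simp only [Finset.inr_mem_disjSum, Finset.mem_singleton]
        rintro rfl
        exact h.disj w' (hRvR w' hw').1 hw
      · simpa using hP w hw
      · rw [Finset.card_disjSum, h.cardP w hw]; simp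
  have hflapcard : ∀ w ∈ Rv, (flap w).card = n + 1 := by
    intro w hw
    simp only [hflap]
    rw [Finset.card_disjSum, Finset.card_erase_of_mem (hRvR w hw).2, h.cardR w (hRvR w hw).1]
    simp
  have hflapins : ∀ w, flap w = insert (Sum.inr w) (((φ w).erase v).disjSum ∅) := by
    intro w
    ext x; rcases x with x | x <;> simp [hflap]
  have hd' : Shelled (A ∪ Rv.image flap) := by
    have : KF R' (P ∪ Rv) (fun w => (φ w).erase v) = A ∪ Rv.image flap := by
      rw [hAdef, KF, KF, Finset.image_union, ← Finset.union_assoc]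
      congr 1
      congr 1
      · apply Finset.image_congr
        intro w hw
        show ((φ w).erase v).disjSum ∅ = _
        rw [Finset.erase_eq_of_notMem (hR'R w hw).2]
      · apply Finset.image_congr
        intro w hw
        show ((φ w).erase v).disjSum {w} = _
        rw [Finset.erase_eq_of_notMem (hP w hw)]
    rw [← this]; exact hd
  have hgoal : KF R P φ = A ∪ Rv.image (fun w => (φ w).disjSum ∅) := by
    have hRR : R = R' ∪ Rv := by
      rw [hRv, hR', Finset.union_comm, Finset.filter_union_filter_not_eq]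
    rw [hAdef, KF, KF]
    conv_lhs => rw [hRR]
    rw [Finset.image_union, Finset.union_assoc, Finset.union_assoc]
    congr 1
    exact Finset.union_comm _ _
  -- one step of removal
  have hrem : ∀ D ⊆ Rv, ∀ w ∈ D, (A ∪ (D.erase w).image flap).Nonempty →
      Shelled (A ∪ D.image flap) → Shelled (A ∪ (D.erase w).image flap) ∧
        ∃ H ∈ A ∪ (D.erase w).image flap, ((φ w).erase v).disjSum ∅ ⊆ H := by
    intro D hD w hw hne hsh
    refine remove_flap (n := n) hsh _ (Sum.inr w) _ (by simp) ?_ ?_ ?_ hne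
    · intro G hG
      rw [Finset.mem_union, Finset.mem_image] at hG
      rcases hG with hG | ⟨w', hw', rfl⟩
      · exact (hAmem G hG).1 w (hD hw)
      · rw [Finset.mem_erase] at hw'
        simp only [hflap, Finset.inr_mem_disjSum, Finset.mem_singleton]
        exact fun h => hw'.1 h.symm
    · rw [← hflapins w, ← Finset.union_insert, ← Finset.image_insert, Finset.insert_erase hw]
    · intro G hG
      rw [Finset.mem_union, Finset.mem_image] at hG
      rcases hG with hG | ⟨w', hw', rfl⟩
      · exact (hAmem G hG).2.2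
      · exact hflapcard w' (hD hw')
  rcases A.eq_empty_or_nonempty with hA0 | hAne
  · -- only new flaps
    rw [hgoal, hA0, Finset.empty_union]
    apply shelled_of_subsingleton
    have huniq : ∀ w ∈ Rv, ∀ w' ∈ Rv, w = w' := by
      intro w hw w' hw'
      by_contra hne
      have h1 : (A ∪ (Rv.erase w).image flap).Nonempty := by
        refine ⟨flap w', Finset.mem_union_right _ (Finset.mem_image_of_mem _ ?_)⟩
        exact Finset.mem_erase.2 ⟨Ne.symm hne, hw'⟩
      obtain ⟨-, H, hH, hsub⟩ := hrem Rv (Finset.Subset.refl _) w hw h1 hd'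
      rw [hA0, Finset.empty_union, Finset.mem_image] at hH
      obtain ⟨w'', hw'', rfl⟩ := hH
      rw [Finset.mem_erase] at hw''
      apply hw''.1
      symm
      apply h.inj w (hRvR w hw).1 w'' (hRvR w'' hw''.2).1
      have h2 : (φ w).erase v ⊆ (φ w'').erase v := by
        intro y hy
        have h3 := hsub (Finset.inl_mem_disjSum.2 hy)
        simpa only [hflap, Finset.inl_mem_disjSum] using h3
      have h4 : (φ w).erase v = (φ w'').erase v := by
        apply Finset.eq_of_subset_of_card_le h2
        rw [Finset.card_erase_of_mem (hRvR w hw).2, Finset.card_erase_of_mem (hRvR w'' hw''.2).2,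
          h.cardR w (hRvR w hw).1, h.cardR w'' (hRvR w'' hw''.2).1]
      rw [← Finset.insert_erase (hRvR w hw).2, h4, Finset.insert_erase (hRvR w'' hw''.2).2]
    intro X hX Y hY
    rw [Finset.mem_image] at hX hY
    obtain ⟨w, hw, rfl⟩ := hX
    obtain ⟨w', hw', rfl⟩ := hY
    rw [huniq w hw w' hw']
  · have hsub : ∀ D : Finset W, D ⊆ Rv → Shelled (A ∪ (Rv \ D).image flap) := by
      intro D
      induction D using Finset.induction_on with
      | empty => intro _; simpa using hd'
      | insert w D hwD ih =>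
        intro hD
        have h1 : D ⊆ Rv := (Finset.subset_insert _ _).trans hD
        have hw : w ∈ Rv := hD (Finset.mem_insert_self _ _)
        have h2 := ih h1
        have h3 := hrem (Rv \ D) Finset.sdiff_subset w (Finset.mem_sdiff.2 ⟨hw, hwD⟩)
          (hAne.mono Finset.subset_union_left) h2
        have h4 : (Rv \ D).erase w = Rv \ insert w D := by
          ext y
          simp only [Finset.mem_erase, Finset.mem_sdiff, Finset.mem_insert]
          tauto
        rw [h4] at h3
        exact h3.1
    have hA : Shelled A := by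
      have := hsub Rv (Finset.Subset.refl _)
      simpa using this
    have hbase : ∀ w ∈ Rv, ∃ H ∈ A, ((φ w).erase v).disjSum ∅ ⊆ H := by
      intro w hw
      have h1 := hsub (Rv.erase w) (Finset.erase_subset _ _)
      have h2 : Rv \ Rv.erase w = {w} := by
        ext y
        simp only [Finset.mem_erase, Finset.mem_sdiff, Finset.mem_singleton]
        constructor
        · rintro ⟨h3, h4⟩
          by_contra h5
          exact h4 ⟨h5, h3⟩
        · rintro rfl
          exact ⟨hw, fun h => h.1 rfl⟩
      rw [h2] at h1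
      have h3 := hrem {w} (by simpa using hw) w (by simp)
        (hAne.mono Finset.subset_union_left) h1
      simpa using h3.2
    rw [hgoal]
    have himg : Rv.image (fun w => (φ w).disjSum (∅ : Finset W)) =
        (KF Rv ∅ (fun w => (φ w).erase v)).image (insert (Sum.inl v)) := by
      rw [KF, Finset.image_empty, Finset.union_empty, Finset.image_image]
      apply Finset.image_congr
      intro w hw
      show (φ w).disjSum ∅ = insert (Sum.inl v) (((φ w).erase v).disjSum ∅)
      ext x
      rcases x with x | x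
      · simp only [Finset.mem_insert, Finset.inl_mem_disjSum, Finset.mem_erase, Sum.inl.injEq]
        by_cases hxv : x = v
        · simp [hxv, (hRvR w hw).2]
        · simp [hxv]
      · simp
    rw [himg]
    refine extend_star hl A (Sum.inl v) hA (fun G hG => (hAmem G hG).2.1) ?_
    intro T hT
    rw [KF, Finset.image_empty, Finset.union_empty, Finset.mem_image] at hT
    obtain ⟨w, hw, rfl⟩ := hT
    exact ⟨by simp, hbase w hw⟩

end

/-- The main induction. -/
theorem shelled_of_vd {K : Cplx (V ⊕ W)} (hK : VertexDecomposable K) :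
    ∀ (n : ℕ) (R P : Finset W) (φ : W → Finset V), St n K R P φ → Shelled (KF R P φ) := by
  induction hK with
  | simplex F =>
    intro n R P φ h
    exact h.shelled_of_simplex
  | shed K x hpure hv hlink hdel hfacet ihl ihd =>
    intro n R P φ h
    rcases x with v | w
    · have hP : ∀ w ∈ P, v ∉ φ w := fun w hw => h.not_mem_cone hfacet hw
      have hn : 1 ≤ n := by
        rcases (h.mem _).1 hv with ⟨x, hx, u, hu, h1⟩ | ⟨x, hx, h1⟩
        · rw [subset_disjSum] at h1
          have h2 := h1.1 v (by simp)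
          have h3 : 1 ≤ ((φ x).erase u).card := Finset.card_pos.2 ⟨v, h2⟩
          rw [Finset.card_erase_of_mem hu, h.cardR x hx] at h3
          omega
        · rw [subset_disjSum] at h1
          exact absurd (h1.1 v (by simp)) (hP x hx)
      obtain ⟨m, rfl⟩ : ∃ m, n = m + 1 := ⟨n - 1, by omega⟩
      exact h.combine hP (ihl m _ _ _ (h.link_old hP)) (ihd (m + 1) _ _ _ (h.del_old hP))
    · by_cases hwP : w ∈ P
      · obtain ⟨⟨H, hH, hsub⟩, h2⟩ := h.del_apex hwP hfacet
        have ih := ihd n _ _ _ h2
        have hset : KF R P φ = insert ((φ w).disjSum {w}) (KF R (P.erase w) φ) := by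
          conv_lhs => rw [KF, ← Finset.insert_erase hwP, Finset.image_insert]
          rw [Finset.union_insert, KF]
        have hfree : ∀ G ∈ KF R (P.erase w) φ, Sum.inr w ∉ G := by
          intro G hG
          rw [KF, Finset.mem_union, Finset.mem_image, Finset.mem_image] at hG
          rcases hG with ⟨x, hx, rfl⟩ | ⟨x, hx, rfl⟩
          · simp
          · rw [Finset.mem_erase] at hx
            simp only [Finset.inr_mem_disjSum, Finset.mem_singleton]
            exact fun h => hx.1 h.symm
        have her : ((φ w).disjSum {w}).erase (Sum.inr w) = (φ w).disjSum ∅ := by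
          ext x; rcases x with x | x <;> simp
        rw [hset]
        refine Shelled.step _ _ ?_ ih ?_
        · intro h3
          exact hfree _ h3 (by simp)
        · intro G hG
          refine ⟨H, hH, Sum.inr w, by simp, ?_, ?_⟩
          · rw [her]; exact hsub
          · intro x hx
            rw [Finset.mem_inter] at hx
            rw [Finset.mem_erase]
            exact ⟨fun h3 => hfree G hG (h3 ▸ hx.1), hx.2⟩
      · have hwR : w ∈ R := by
          rcases (h.mem _).1 hv with ⟨x, hx, u, hu, h1⟩ | ⟨x, hx, h1⟩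
          · rw [subset_disjSum] at h1
            rw [h1.2 w (by simp)]; exact hx
          · rw [subset_disjSum] at h1
            exact absurd (by rw [h1.2 w (by simp)]; exact hx) hwP
        obtain ⟨h1, h2⟩ := h.del_stack hwR hfacet
        have ih := ihd n _ _ _ h2
        have hset : KF R P φ = insert ((φ w).disjSum ∅) (KF (R.erase w) P φ) := by
          conv_lhs => rw [KF, ← Finset.insert_erase hwR, Finset.image_insert]
          rw [Finset.insert_union, KF]
        have hne : ∀ G ∈ KF (R.erase w) P φ, ∃ u ∈ φ w, Sum.inl u ∉ G := by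
          intro G hG
          by_contra hcon
          push Not at hcon
          rw [KF, Finset.mem_union, Finset.mem_image, Finset.mem_image] at hG
          rcases hG with ⟨x, hx, rfl⟩ | ⟨x, hx, rfl⟩
          · rw [Finset.mem_erase] at hx
            have h3 : φ w ⊆ φ x := fun y hy => by simpa using hcon y hy
            have h4 : φ w = φ x := Finset.eq_of_subset_of_card_le h3
              (by rw [h.cardR w hwR, h.cardR x hx.2])
            exact hx.1 (h.inj w hwR x hx.2 h4).symm
          · have h3 : φ w ⊆ φ x := fun y hy => by simpa using hcon y hy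
            have h4 := Finset.card_le_card h3
            rw [h.cardR w hwR, h.cardP x hx] at h4
            omega
        rw [hset]
        refine Shelled.step _ _ ?_ ih ?_
        · intro h3
          obtain ⟨u, hu, h4⟩ := hne _ h3
          exact h4 (by simpa using hu)
        · intro G hG
          obtain ⟨u, hu, h4⟩ := hne G hG
          obtain ⟨H, hH, hsub⟩ := h1 u hu
          have her : ((φ w).disjSum (∅ : Finset W)).erase (Sum.inl u) =
              ((φ w).erase u).disjSum ∅ := by
            ext x; rcases x with x | x <;> simp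
          refine ⟨H, hH, Sum.inl u, by simpa using hu, ?_, ?_⟩
          · rw [her]; exact hsub
          · intro x hx
            rw [Finset.mem_inter] at hx
            rw [Finset.mem_erase]
            exact ⟨fun h3 => h4 (h3 ▸ hx.1), hx.2⟩

end Pool.Agent.Lib.MP_1611d4_co
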